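import Pool.Agent.helper38.VA.Spec

/-!
# Row `va:CLD` of MP_a2a22c: the shape of the D-type
-/

set_option autoImplicit false

namespace Pool.Agent.VA

open Matrix Module Pool.Agent.PR Pool.Agent.H48SL

/-- a matrix with range in a space of dimension at most one, not of rank one, is zero -/
theorem CLD_rank {X : MQ 4} (hX : X.rank ≠ 1) {K : Submodule ℚ (Fin 4 → ℚ)} (hK : finrank ℚ K ≤ 1)
    (h : ∀ v, X *ᵥ v ∈ K) : X = 0 := by
  have h1 : LinearMap.range X.mulVecLin ≤ K := by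
    rintro _ ⟨v, rfl⟩
    exact h v
  have h2 : X.rank ≤ finrank ℚ K := Submodule.finrank_mono h1
  have h3 : X.rank = 0 := by omega
  have h4 : LinearMap.range X.mulVecLin = ⊥ := Submodule.finrank_eq_zero.mp h3
  have h5 : X.mulVecLin = 0 := LinearMap.range_eq_bot.mp h4
  ext i j
  have h6 := congrFun (LinearMap.congr_fun h5 (Pi.single j 1)) i
  simpa using h6

/-- a matrix which kills a hyperplane, not of rank one, is zero -/
theorem CLD_ker {X : MQ 4} (hX : X.rank ≠ 1) {U : Submodule ℚ (Fin 4 → ℚ)} (hU : finrank ℚ U = 3)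
    (h : ∀ v ∈ U, X *ᵥ v = 0) : X = 0 := by
  have h1 : U ≤ LinearMap.ker X.mulVecLin := fun v hv => h v hv
  have h2 : 3 ≤ finrank ℚ (LinearMap.ker X.mulVecLin) := hU ▸ Submodule.finrank_mono h1
  have h3 := LinearMap.finrank_range_add_finrank_ker X.mulVecLin
  rw [Module.finrank_fin_fun] at h3
  refine CLD_rank hX (K := LinearMap.range X.mulVecLin) (by omega) fun v => ⟨v, rfl⟩

theorem CLD_mem {W : Submodule ℚ (MQ 4)} {I : Submodule ℚ (Fin 4 → ℚ)} {X : MQ 4} (hX : X ∈ W)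
    {v : Fin 4 → ℚ} (hv : v ∈ I) : X *ᵥ v ∈ WI W I :=
  Submodule.subset_span ⟨X, hX, v, hv, rfl⟩

theorem CLD_le {W : Submodule ℚ (MQ 4)} {I K : Submodule ℚ (Fin 4 → ℚ)}
    (h : ∀ X ∈ W, ∀ v ∈ I, X *ᵥ v ∈ K) : WI W I ≤ K := by
  refine Submodule.span_le.mpr ?_
  rintro _ ⟨X, hX, v, hv, rfl⟩
  exact h X hX v hv

/-- a hyperplane as the kernel of a row -/
theorem CLD_form {U : Submodule ℚ (Fin 4 → ℚ)} (hU : finrank ℚ U = 3) :
    ∃ φ : Fin 4 → ℚ, φ ≠ 0 ∧ ∀ v, φ ⬝ᵥ v = 0 ↔ v ∈ U := by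
  have hlt : U < ⊤ := by
    refine lt_top_iff_ne_top.mpr fun h => ?_
    rw [h, finrank_top, Module.finrank_fin_fun] at hU
    omega
  obtain ⟨f, hf, hUf⟩ := Submodule.exists_le_ker_of_lt_top U hlt
  have hfv : ∀ v : Fin 4 → ℚ, (fun i => f (Pi.single i 1)) ⬝ᵥ v = f v := by
    intro v
    conv_rhs => rw [← Finset.univ_sum_single v]
    rw [map_sum, dotProduct]
    refine Finset.sum_congr rfl fun i _ => ?_
    have : (Pi.single i (v i) : Fin 4 → ℚ) = v i • Pi.single i (1 : ℚ) := by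
      rw [← Pi.single_smul', smul_eq_mul, mul_one]
    rw [this, map_smul, smul_eq_mul, mul_comm]
  have hker : finrank ℚ (LinearMap.ker f) = 3 := by
    have h1 : 3 ≤ finrank ℚ (LinearMap.ker f) := hU ▸ Submodule.finrank_mono hUf
    have h2 : LinearMap.ker f < ⊤ := lt_top_iff_ne_top.mpr fun h => hf (LinearMap.ker_eq_top.mp h)
    have h3 := Submodule.finrank_lt h2.ne
    rw [Module.finrank_fin_fun] at h3
    omega
  have heq : U = LinearMap.ker f := Submodule.eq_of_le_of_finrank_eq hUf (hU.trans hker.symm)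
  refine ⟨fun i => f (Pi.single i 1), ?_, fun v => ?_⟩
  · intro h0
    apply hf
    refine LinearMap.ext fun v => ?_
    rw [← hfv, h0, zero_dotProduct]
    rfl
  · rw [hfv, heq, LinearMap.mem_ker]

theorem CLD (hCLA : CLA_stmt) (hCLB : CLB_stmt) (hCLN : CLN_stmt) : CLD_stmt := by
  intro H W b hS hr hU
  obtain ⟨hA1, hA2⟩ := hCLA 4 H W b hS
  set U := WI W (⊤ : Submodule ℚ (Fin 4 → ℚ)) with hUdef
  obtain ⟨φ, hφ0, hφ⟩ := CLD_form hU
  have hXU : ∀ X ∈ W, ∀ v, X *ᵥ v ∈ U := fun X hX v => CLD_mem hX Submodule.mem_top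
  -- (1)
  have h1 : ∀ X ∈ W, X ≠ 0 → ∃ v ∈ U, X *ᵥ v ≠ 0 := by
    intro X hX hX0
    by_contra hcon
    push Not at hcon
    exact hX0 (CLD_ker (hr X hX) hU hcon)
  have hStaT : Sta b (⊤ : Submodule ℚ (Fin 4 → ℚ)) := fun v _ => Submodule.mem_top
  have hStaU : Sta b U := hA1 ⊤ hStaT
  set U₁ := WI W U with hU1def
  have hStaU1 : Sta b U₁ := hA1 U hStaU
  have hUne : U ≠ ⊥ := by
    intro h
    rw [h, finrank_bot] at hU
    omega
  have hU1lt : U₁ < U := hCLN 4 W hS.nil hS.com U hUne fun X hX v _ => hXU X hX v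
  have hU1stab : ∀ X ∈ W, ∀ v ∈ U₁, X *ᵥ v ∈ U₁ := fun X hX v hv => CLD_mem hX (hU1lt.le hv)
  -- a nonzero element of `W`
  have hWne : W ≠ ⊥ := by
    intro h
    have := hS.two
    rw [h, finrank_bot] at this
    omega
  obtain ⟨X₀, hX₀, hX₀0⟩ := Submodule.exists_mem_ne_zero_of_ne_bot hWne
  have hU1ne : U₁ ≠ ⊥ := by
    intro h
    obtain ⟨v, hv, hv0⟩ := h1 X₀ hX₀ hX₀0
    apply hv0
    have h2 : X₀ *ᵥ v ∈ U₁ := CLD_mem hX₀ hv
    rw [h] at h2
    exact (Submodule.mem_bot ℚ).mp h2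
  have hUlt : U < ⊤ := by
    refine lt_top_iff_ne_top.mpr fun h => ?_
    rw [h, finrank_top, Module.finrank_fin_fun] at hU
    omega
  have hd3 : finrank ℚ U₁ < 3 := hU ▸ Submodule.finrank_lt_finrank_of_lt hU1lt
  have hd0 : 0 < finrank ℚ U₁ := by
    rcases Nat.eq_zero_or_pos (finrank ℚ U₁) with h | h
    · exact (hU1ne (Submodule.finrank_eq_zero.mp h)).elim
    · exact h
  -- (3)
  have hd : finrank ℚ U₁ = 1 := by
    by_contra hne1
    have hd2 : finrank ℚ U₁ = 2 := by omega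
    obtain ⟨Z, hZ, hZ0, hZk⟩ := hCLB 4 W hS.nil hS.com hS.two U₁ hd2.le hU1stab
    have hkill : ∀ X ∈ W, ∀ v ∈ U₁, X *ᵥ v = 0 := by
      intro X hX v hv
      have := hA2 U₁ ⊥ hStaU1 (fun v hv => by
        rw [(Submodule.mem_bot ℚ).mp hv, mulVec_zero]
        exact Submodule.zero_mem _) ⟨Z, hZ, hZ0, fun v hv => by
          rw [hZk v hv]
          exact Submodule.zero_mem _⟩ X hX v hv
      exact (Submodule.mem_bot ℚ).mp this
    obtain ⟨v, -, hvU⟩ := SetLike.exists_of_lt hUlt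
    obtain ⟨u, huU, huU1⟩ := SetLike.exists_of_lt hU1lt
    -- `U = U₁ + ℚ u`
    have hdec : ∀ w ∈ U, ∃ c : ℚ, w - c • u ∈ U₁ := by
      have hle : U₁ ⊔ Submodule.span ℚ {u} ≤ U :=
        sup_le hU1lt.le ((Submodule.span_singleton_le_iff_mem u U).mpr huU)
      have hlt : U₁ < U₁ ⊔ Submodule.span ℚ {u} := by
        refine lt_of_le_of_ne le_sup_left fun h => huU1 ?_
        rw [h]
        exact (le_sup_right : Submodule.span ℚ {u} ≤ _) (Submodule.mem_span_singleton_self u)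
      have h3 := Submodule.finrank_lt_finrank_of_lt hlt
      have h4 := Submodule.finrank_mono hle
      have heq : U₁ ⊔ Submodule.span ℚ {u} = U :=
        Submodule.eq_of_le_of_finrank_eq hle (by omega)
      intro w hw
      rw [← heq] at hw
      obtain ⟨y, hy, z, hz, rfl⟩ := Submodule.mem_sup.mp hw
      obtain ⟨c, rfl⟩ := Submodule.mem_span_singleton.mp hz
      exact ⟨c, by rwa [add_sub_cancel_right]⟩
    have hinj : ∀ X ∈ W, X *ᵥ u = 0 → X = 0 := by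
      intro X hX hXu
      refine CLD_ker (hr X hX) hU fun w hw => ?_
      obtain ⟨c, hc⟩ := hdec w hw
      have h5 := hkill X hX _ hc
      rw [mulVec_sub, mulVec_smul, hXu, smul_zero, sub_zero] at h5
      exact h5
    have hx : ∀ X ∈ W, X *ᵥ v ∈ U₁ := by
      intro X hX
      obtain ⟨x, hx⟩ := hdec _ (hXU X hX v)
      by_cases hx0 : x = 0
      · rw [hx0, zero_smul, sub_zero] at hx
        exact hx
      exfalso
      -- all `Y ∈ W` are multiples of `X`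
      have hall : ∀ Y ∈ W, ∃ c : ℚ, c • X = Y := by
        intro Y hY
        obtain ⟨y, hy⟩ := hdec _ (hXU Y hY v)
        have h5 : X *ᵥ (Y *ᵥ v) = y • (X *ᵥ u) := by
          have h6 := hkill X hX _ hy
          rw [mulVec_sub, mulVec_smul, sub_eq_zero] at h6
          exact h6
        have h6 : Y *ᵥ (X *ᵥ v) = x • (Y *ᵥ u) := by
          have h6 := hkill Y hY _ hx
          rw [mulVec_sub, mulVec_smul, sub_eq_zero] at h6
          exact h6
        have h7 : y • (X *ᵥ u) = x • (Y *ᵥ u) := by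
          rw [← h5, ← h6, mulVec_mulVec, mulVec_mulVec, hS.com X hX Y hY]
        have h8 : y • X - x • Y = 0 := by
          refine hinj _ (W.sub_mem (W.smul_mem _ hX) (W.smul_mem _ hY)) ?_
          rw [sub_mulVec, smul_mulVec, smul_mulVec, h7, sub_self]
        refine ⟨x⁻¹ * y, ?_⟩
        rw [mul_smul, sub_eq_zero.mp h8, smul_smul, inv_mul_cancel₀ hx0, one_smul]
      have hWle : W ≤ Submodule.span ℚ {X} := by
        intro Y hY
        obtain ⟨c, hc⟩ := hall Y hY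
        exact Submodule.mem_span_singleton.mpr ⟨c, hc⟩
      have h9 := Submodule.finrank_mono hWle
      have h10 : finrank ℚ (Submodule.span ℚ {X}) ≤ 1 := by
        have h := finrank_span_finset_le_card (R := ℚ) ({X} : Finset (MQ 4))
        rwa [Finset.coe_singleton, Finset.card_singleton] at h
      have h11 := hS.two
      omega
    -- so `U ≤ U₁`
    have hdecV : ∀ w : Fin 4 → ℚ, ∃ c : ℚ, w - c • v ∈ U := by
      intro w
      have hv0 : φ ⬝ᵥ v ≠ 0 := fun h => hvU ((hφ v).mp h)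
      refine ⟨(φ ⬝ᵥ v)⁻¹ * (φ ⬝ᵥ w), (hφ _).mp ?_⟩
      rw [dotProduct_sub, dotProduct_smul, smul_eq_mul, mul_right_comm, inv_mul_cancel₀ hv0,
        one_mul, sub_self]
    have hle : U ≤ U₁ := by
      refine CLD_le fun X hX w _ => ?_
      obtain ⟨c, hc⟩ := hdecV w
      have h5 : X *ᵥ w = X *ᵥ (w - c • v) + c • (X *ᵥ v) := by
        rw [mulVec_sub, mulVec_smul, sub_add_cancel]
      rw [h5]
      exact U₁.add_mem (CLD_mem hX hc) (U₁.smul_mem _ (hx X hX))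
    exact absurd hU1lt (not_lt_of_ge hle)
  -- (4)
  obtain ⟨⟨k, hkU1⟩, hk0', hk'⟩ := finrank_eq_one_iff'.mp hd
  have hk0 : k ≠ 0 := fun h => hk0' (Subtype.ext h)
  have hk : ∀ w ∈ U₁, ∃ c : ℚ, w = c • k := by
    intro w hw
    obtain ⟨c, hc⟩ := hk' ⟨w, hw⟩
    exact ⟨c, (congrArg Subtype.val hc).symm⟩
  have hXk : ∀ X ∈ W, X *ᵥ k = 0 := by
    intro X hX
    have hlt := hCLN 4 W hS.nil hS.com U₁ hU1ne hU1stab
    have h3 := Submodule.finrank_lt_finrank_of_lt hlt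
    have h4 : WI W U₁ = ⊥ := Submodule.finrank_eq_zero.mp (by omega)
    have h5 : X *ᵥ k ∈ WI W U₁ := CLD_mem hX hkU1
    rw [h4] at h5
    exact (Submodule.mem_bot ℚ).mp h5
  have hXu : ∀ X ∈ W, ∀ v, φ ⬝ᵥ v = 0 → ∃ c : ℚ, X *ᵥ v = c • k := fun X hX v hv =>
    hk _ (CLD_mem hX ((hφ v).mp hv))
  -- (5), (6)
  have hinjw : ∀ w, φ ⬝ᵥ w = 1 → ∀ X ∈ W, X *ᵥ w ∈ U₁ → X = 0 := by
    intro w hw X hX hXw
    refine CLD_rank (hr X hX) (K := U₁) hd.le fun v => ?_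
    have h5 : X *ᵥ v = X *ᵥ (v - (φ ⬝ᵥ v) • w) + (φ ⬝ᵥ v) • (X *ᵥ w) := by
      rw [mulVec_sub, mulVec_smul, sub_add_cancel]
    rw [h5]
    refine U₁.add_mem (CLD_mem hX ((hφ _).mp ?_)) (U₁.smul_mem _ hXw)
    rw [dotProduct_sub, dotProduct_smul, hw, smul_eq_mul, mul_one, sub_self]
  -- the map `(X, a) ↦ X w + a`
  have hmap : ∀ w, φ ⬝ᵥ w = 1 → ∃ Ψ : (W × U₁) →ₗ[ℚ] U, Function.Injective Ψ ∧
      ∀ X a, ((Ψ (X, a) : U) : Fin 4 → ℚ) = (X : MQ 4) *ᵥ w + a := by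
    intro w hw
    let Ψ : (W × U₁) →ₗ[ℚ] U :=
      { toFun := fun p => ⟨(p.1 : MQ 4) *ᵥ w + p.2, U.add_mem (hXU _ p.1.2 w) (hU1lt.le p.2.2)⟩
        map_add' := fun p q => Subtype.ext (by
          show ((p.1 : MQ 4) + (q.1 : MQ 4)) *ᵥ w + ((p.2 : Fin 4 → ℚ) + (q.2 : Fin 4 → ℚ)) =
            ((p.1 : MQ 4) *ᵥ w + p.2) + ((q.1 : MQ 4) *ᵥ w + q.2)
          rw [add_mulVec]
          abel)
        map_smul' := fun c p => Subtype.ext (by
          show (c • (p.1 : MQ 4)) *ᵥ w + c • (p.2 : Fin 4 → ℚ) =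
            c • ((p.1 : MQ 4) *ᵥ w + p.2)
          rw [smul_mulVec, smul_add]) }
    refine ⟨Ψ, ?_, fun X a => rfl⟩
    rw [← LinearMap.ker_eq_bot, LinearMap.ker_eq_bot']
    rintro ⟨X, a⟩ hXa
    have h6 : (X : MQ 4) *ᵥ w + a = 0 := congrArg Subtype.val hXa
    have h7 : (X : MQ 4) *ᵥ w = -(a : Fin 4 → ℚ) := eq_neg_of_add_eq_zero_left h6
    have h8 : (X : MQ 4) = 0 := hinjw w hw X X.2 (by rw [h7]; exact U₁.neg_mem a.2)
    rw [h8, zero_mulVec, zero_add] at h6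
    exact Prod.ext (Subtype.ext h8) (Subtype.ext h6)
  have hWd : finrank ℚ W = 2 := by
    obtain ⟨i, hi⟩ := Function.ne_iff.mp hφ0
    obtain ⟨Ψ, hΨ, -⟩ := hmap ((φ i)⁻¹ • Pi.single i 1) (by
      rw [dotProduct_smul, dotProduct_single_one, smul_eq_mul]
      exact inv_mul_cancel₀ hi)
    have h5 := LinearMap.finrank_le_finrank_of_injective hΨ
    rw [Module.finrank_prod, hU, hd] at h5
    have := hS.two
    omega
  refine ⟨k, φ, hk0, hφ0, (hφ k).mpr (hU1lt.le hkU1), hWd, hXk, ?_, hXu, ?_, ?_⟩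
  · intro X hX
    funext j
    have h5 : φ ⬝ᵥ (X *ᵥ Pi.single j 1) = 0 := (hφ _).mpr (hXU X hX _)
    rw [dotProduct_mulVec, dotProduct_single_one] at h5
    exact h5
  · intro v hv w hw
    obtain ⟨Ψ, hΨ, hΨe⟩ := hmap w hw
    have hsurj : Function.Surjective Ψ :=
      (LinearMap.injective_iff_surjective_of_finrank_eq_finrank
        (by rw [Module.finrank_prod, hU, hd, hWd])).mp hΨ
    obtain ⟨⟨X, a⟩, hXa⟩ := hsurj ⟨v, (hφ v).mp hv⟩
    obtain ⟨c, hc⟩ := hk a a.2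
    have h5 : (X : MQ 4) *ᵥ w + a = v := by
      rw [← hΨe, hXa]
    refine ⟨X, X.2, -c, ?_⟩
    rw [neg_smul, ← hc, ← sub_eq_add_neg]
    exact eq_sub_of_add_eq h5
  · intro X hX hX0
    obtain ⟨v, hv, hv0⟩ := h1 X hX hX0
    exact ⟨v, (hφ v).mpr hv, hv0⟩

end Pool.Agent.VA
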